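import Pool.Agent.Helper96.KS.Parts

/-! Part CHEB. -/

set_option autoImplicit false

open Finset

namespace KS.CHEB_helper32

open KS KS.Inst
open scoped Classical

theorem main (hMOM : KS.S_MOM) (hC1 : KS.S_C1) (hTN : KS.S_TN) : KS.S_CHEB := by
  intro K Δ I hI hal s0 hs0 hs n k0 A hA hA2
  obtain ⟨-, -, -, -, hpsi, -⟩ := hC1 K Δ I hI hal
  obtain ⟨-, -, hmom, -⟩ := hMOM K Δ I hI hal s0 hs0 hs n k0
  obtain ⟨hmono, hlin, -⟩ := hTN K Δ I hI
  have hA2' : 0 < A ^ 2 := by positivity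
  have hb : ∀ k, (psi I k - psi I k0) ^ 2 ≤ A ^ 2 / 4 := by
    intro k
    have h1 := hpsi k
    have h2 := hpsi k0
    have h3 : (psi I k - psi I k0) ^ 2 ≤ 2 * (psi I k ^ 2 + psi I k0 ^ 2) := by
      nlinarith [sq_nonneg (psi I k + psi I k0)]
    have h4 : (K : ℝ) * I.nu2 / (2 * I.al) = (8 * K * I.nu2 / I.al) / 16 := by
      field_simp
      ring
    rw [h4] at h1 h2
    linarith
  have hpt : ∀ (k : Fin K) (x : ℝ), (if A ≤ |x - n * I.mu| then (1 : ℝ) else 0) ≤
      (4 / A ^ 2) * (x - n * I.mu + psi I k - psi I k0) ^ 2 + 0 * 0 := by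
    intro k x
    split_ifs with h
    · have h1 := hb k
      set y := x - n * I.mu with hy
      set z := psi I k - psi I k0 with hz
      have e1 : y + psi I k - psi I k0 = y + z := by rw [hz]; ring
      rw [e1]
      have h2 : |z| ≤ A / 2 := by
        apply abs_le_of_sq_le_sq _ (by linarith)
        calc z ^ 2 ≤ A ^ 2 / 4 := h1
          _ = (A / 2) ^ 2 := by ring
      have h3 : A / 2 ≤ |y + z| := by
        have h5 : |y| ≤ |y + z| + |z| := by
          have : y = (y + z) - z := by ring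
          calc |y| = |(y + z) - z| := by rw [← this]
            _ ≤ _ := abs_sub _ _
        linarith
      have h4 : A ^ 2 / 4 ≤ (y + z) ^ 2 := by
        rw [← sq_abs (y + z)]
        calc A ^ 2 / 4 = (A / 2) ^ 2 := by ring
          _ ≤ _ := pow_le_pow_left₀ (by linarith) h3 2
      have h6 : (4 / A ^ 2) * (A ^ 2 / 4) = 1 := by field_simp
      have h7 := mul_le_mul_of_nonneg_left h4 (by positivity : (0 : ℝ) ≤ 4 / A ^ 2)
      linarith
    · positivity
  have h1 := hmono n (fun _ x => if A ≤ |x - n * I.mu| then (1 : ℝ) else 0)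
    (fun k x => (4 / A ^ 2) * (x - n * I.mu + psi I k - psi I k0) ^ 2 + 0 * 0) hpt k0 0
  have h2 := hlin n (fun k x => (x - n * I.mu + psi I k - psi I k0) ^ 2) (fun _ _ => 0)
    (4 / A ^ 2) 0 k0 0
  refine h1.trans ?_
  have h3 : I.Tn n (fun k x => (4 / A ^ 2) * (x - n * I.mu + psi I k - psi I k0) ^ 2 + 0 * 0) k0 0 =
      (4 / A ^ 2) * I.Tn n (fun k x => (x - n * I.mu + psi I k - psi I k0) ^ 2) k0 0 +
        0 * I.Tn n (fun _ _ => 0) k0 0 := h2
  rw [h3, zero_mul, add_zero]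
  calc (4 / A ^ 2) * I.Tn n (fun k x => (x - n * I.mu + psi I k - psi I k0) ^ 2) k0 0
      ≤ (4 / A ^ 2) * (6 * K * I.nu2 * n) := mul_le_mul_of_nonneg_left hmom (by positivity)
    _ = 24 * K * I.nu2 * n / A ^ 2 := by ring

end KS.CHEB_helper32
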