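import Pool.Agent.Helper96.KS.Parts

/-! Part Q. -/

set_option autoImplicit false

open Finset

namespace KS.Q_helper32

open KS KS.Inst
open scoped Classical

theorem main : KS.S_Q := by
  intro K Δ I hI
  have hK : (0 : ℝ) < K := by
    have := hI.hK
    exact_mod_cast (by omega : 0 < K)
  have hK1 : (1 : ℝ) ≤ K := by
    have := hI.hK
    exact_mod_cast (by omega : 1 ≤ K)
  have hN : (0 : ℝ) < I.N := by exact_mod_cast hI.npos
  have al0 : 0 ≤ I.al := by unfold Inst.al; positivity
  have al1 : I.al ≤ 1 := by
    unfold Inst.al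
    rw [div_le_one hN]
    exact_mod_cast hI.al1
  have alK0 : 0 ≤ I.al / K := by positivity
  have alK1 : I.al / K ≤ I.al := div_le_self al0 hK1
  have m0 : ∀ k l, 0 ≤ I.Msw k l := by
    intro k l
    unfold Inst.Msw
    split_ifs
    · linarith
    · linarith
  have m1 : ∀ k l, I.Msw k l ≤ 1 := by
    intro k l
    unfold Inst.Msw
    split_ifs
    · linarith
    · linarith
  have ms : ∀ k, ∑ l, I.Msw k l = 1 := by
    intro k
    unfold Inst.Msw
    rw [Finset.sum_add_distrib, ← Finset.mul_sum]
    simp only [Finset.sum_ite_eq, Finset.mem_univ, if_true, Finset.sum_const, Finset.card_univ,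
      Fintype.card_fin, nsmul_eq_mul]
    field_simp
    ring
  have hq : ∀ k (f : Fin K → ℝ), ∑ v, I.q k v * f (I.c v) = ∑ l, I.Msw k l * f l := by
    intro k f
    rw [← Finset.sum_fiberwise (s := univ) (g := fun v : I.H => I.c v)]
    refine Finset.sum_congr rfl fun l _ => ?_
    have h1 : ∀ v ∈ univ.filter (fun v : I.H => I.c v = l), I.q k v * f (I.c v) =
        ((K : ℝ) / I.N) * I.Msw k l * f l := by
      intro v hv
      have h2 := (Finset.mem_filter.1 hv).2
      unfold Inst.q
      rw [h2]
    rw [Finset.sum_congr rfl h1, Finset.sum_const, nsmul_eq_mul]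
    have h3 : (K : ℝ) * ((univ.filter (fun v : I.H => I.c v = l)).card : ℝ) = I.N := by
      have := hI.bal l
      unfold Inst.Hk at this
      exact_mod_cast this
    have h4 : ((univ.filter (fun v : I.H => I.c v = l)).card : ℝ) * ((K : ℝ) / I.N) = 1 := by
      rw [mul_div_assoc', mul_comm, h3, div_self hN.ne']
    calc ((univ.filter (fun v : I.H => I.c v = l)).card : ℝ) * ((K : ℝ) / I.N * I.Msw k l * f l)
        = (((univ.filter (fun v : I.H => I.c v = l)).card : ℝ) * ((K : ℝ) / I.N)) *
          (I.Msw k l * f l) := by ring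
      _ = I.Msw k l * f l := by rw [h4, one_mul]
  refine ⟨m0, m1, ?_, ms, ?_, ?_, ?_, hq⟩
  · intro k l
    unfold Inst.Msw
    by_cases h : k = l
    · rw [if_pos h, if_pos h.symm]
    · rw [if_neg h, if_neg (Ne.symm h)]
  · intro k v
    unfold Inst.q
    exact mul_nonneg (by positivity) (m0 _ _)
  · intro k v
    unfold Inst.q
    exact mul_le_of_le_one_right (by positivity) (m1 _ _)
  · intro k
    have := hq k (fun _ => 1)
    simp only [mul_one] at this
    rw [this, ms]

end KS.Q_helper32
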