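import Pool.Agent.Helper96.KS.Parts

/-! Part WT. -/

set_option autoImplicit false

open Finset

namespace KS.WT_helper32

open KS KS.Inst
open scoped Classical

variable {K : ℕ} {I : Inst K}

theorem nxt_ok {Δ : ℕ} (hI : I.Valid Δ) (S : I.St) (u v : I.H) (hu : u ∈ S.L)
    (h : ∀ a ∈ S.L, 0 ≤ S.wt a ∧ S.wt a ≤ (1 / 2) ^ S.dep a) :
    ∀ a ∈ (nxt S u v).L, 0 ≤ (nxt S u v).wt a ∧ (nxt S u v).wt a ≤ (1 / 2) ^ (nxt S u v).dep a := by
  intro a ha
  unfold nxt at ha ⊢
  split_ifs at ha ⊢ with hF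
  · simp only at ha ⊢
    have hdg : (2 : ℝ) ≤ I.dg v := by
      have : 3 ≤ I.d v.1 := hI.d3 v.1
      have h2 : 2 ≤ I.dg v := by unfold Inst.dg; omega
      exact_mod_cast h2
    obtain ⟨w0, w1⟩ := h u hu
    split_ifs with hc
    · constructor
      · positivity
      · rw [pow_succ, div_le_iff₀ (by linarith)]
        have h3 : (0 : ℝ) ≤ (1 / 2) ^ S.dep u := by positivity
        nlinarith
    · rcases Finset.mem_union.1 ha with ha | ha
      · exact h a (Finset.mem_of_mem_erase ha)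
      · exact absurd ha hc
  · simp only at ha ⊢
    exact h a (Finset.mem_of_mem_erase (Finset.mem_of_mem_erase ha))

theorem stp_ok {Δ : ℕ} (hI : I.Valid Δ) (s : ℕ) (om : ℝ) (η : I.H → I.H) (S : I.St)
    (h : ∀ a ∈ S.L, 0 ≤ S.wt a ∧ S.wt a ≤ (1 / 2) ^ S.dep a) :
    ∀ a ∈ (stp s om η S).L, 0 ≤ (stp s om η S).wt a ∧
      (stp s om η S).wt a ≤ (1 / 2) ^ (stp s om η S).dep a := by
  unfold stp
  cases hp : pick s om S with
  | none => exact h
  | some u =>
    have hu : u ∈ S.L := by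
      unfold pick at hp
      split_ifs at hp with hne
      have h1 := (Classical.choose_spec (Finset.exists_min_image (procs s om S) S.dep hne)).1
      rw [Option.some.inj hp] at h1
      exact (Finset.mem_filter.1 h1).1
    exact nxt_ok hI S u (η u) hu h

theorem run_ok {Δ : ℕ} (hI : I.Valid Δ) (s : ℕ) (om : ℝ) (η : I.H → I.H) (k : ℕ) : ∀ (S : I.St),
    (∀ a ∈ S.L, 0 ≤ S.wt a ∧ S.wt a ≤ (1 / 2) ^ S.dep a) →
    ∀ a ∈ (run s om η k S).L, 0 ≤ (run s om η k S).wt a ∧
      (run s om η k S).wt a ≤ (1 / 2) ^ (run s om η k S).dep a := by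
  induction k with
  | zero => intro S h; exact h
  | succ k ih =>
    intro S h
    exact ih (stp s om η S) (stp_ok hI s om η S h)

theorem main : KS.S_WT := by
  intro K Δ I hI s om η D F x k _ _ _ _ _ a ha
  refine (run_ok hI s om η k (init D F x) ?_ a ha).2
  intro b hb
  simp [init]

end KS.WT_helper32
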